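import Pool.Agent.Z15P.Z15.S.Stm
import Pool.Agent.Z15P.T2h62.J15.PENi
import Pool.Agent.Z15P.T2h99.J.Tr

/-!
Roitman's theorem for zero-cycles on the varieties defined by systems of forms `g a` of degrees `d a`
in at least `∑ d a + 1` variables.
-/

set_option autoImplicit false

open FF FF.PP MvPolynomial Pool.Agent.Z15P.Z15.H Pool.Agent.Z15P.Z15.J Pool.Agent.Z15P.Z15.J.Stm

namespace Pool.Agent.Z15P.Z15.S

open Pool.Agent.Z15P.T2h62.J15 (reg_alg constAlg red_aeval Vanish.span reg_inv)
open Pool.Agent.Z15P.T2h62.H15 (reg_sub exists_prim li_iff li_of_minor exists_minor)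

section

variable {K M : Type} [Field K] [Field M] [Algebra K M]

/-- the valuation ring as an algebra -/
def regSub (v : Place K M) : Subalgebra K M where
  carrier := {x | v.Reg x}
  mul_mem' := v.reg_mul
  add_mem' := v.reg_add
  algebraMap_mem' := v.reg_const

/-- the reduction -/
noncomputable def regRed (v : Place K M) : regSub v →ₐ[K] v.RF where
  toFun := fun x => v.red x.1
  map_one' := v.red_one
  map_mul' := fun x y => v.red_mul x.2 y.2
  map_zero' := v.red_zero
  map_add' := fun x y => v.red_add x.2 y.2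
  commutes' := fun _ => rfl

theorem red_co (hCO : S_CO) [Infinite K] {ι : Type} [Fintype ι] {F : MvPolynomial ι K} {d : ℕ}
    (hF : F.IsHomogeneous d) (v : Place K M) {P w : ι → M} (hP : ∀ i, v.Reg (P i))
    (hw : ∀ i, v.Reg (w i)) (j : ℕ) :
    v.Reg (co F P w j) ∧
      v.red (co F P w j) = co F (fun i => v.red (P i)) (fun i => v.red (w i)) j := by
  obtain ⟨-, -, -, h4, -⟩ := hCO K ι F d hF
  have h1 := h4 (regSub v) M (regSub v).val (fun i => ⟨P i, hP i⟩) (fun i => ⟨w i, hw i⟩) j
  have h2 := h4 (regSub v) v.RF (regRed v) (fun i => ⟨P i, hP i⟩) (fun i => ⟨w i, hw i⟩) j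
  have h3 : co F P w j = (co F (fun i => (⟨P i, hP i⟩ : regSub v)) (fun i => ⟨w i, hw i⟩) j).1 := h1
  have h5 : co F (fun i => v.red (P i)) (fun i => v.red (w i)) j =
      v.red (co F (fun i => (⟨P i, hP i⟩ : regSub v)) (fun i => ⟨w i, hw i⟩) j).1 := h2
  rw [h5, h3]
  exact ⟨(co F (fun i => (⟨P i, hP i⟩ : regSub v)) (fun i => ⟨w i, hw i⟩) j).2, rfl⟩

end

section

variable {K : Type} [Field K] [Infinite K] {κ α : Type} [Fintype κ]

/-- points on a line -/
theorem compareS (hR : S_R) (hCYC : T_CYC2) {g : α → MvPolynomial κ K} {E : Type} [Field E]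
    [Algebra K E] (hE : IsFG 0 K E) {A B w : κ → E} (hA : A ≠ 0) (hB : B ≠ 0)
    (hV : ∀ a, Vanish (g a) A w) (hm : B ∈ Submodule.span E {A, w}) :
    cyc K B - cyc K A ∈ RatS K 0 g := by
  by_cases hli : LinearIndependent E ![B, A]
  · obtain ⟨T, m, a, b, -, hT, hrat⟩ := hR K κ E 0 hE α g B A hli
      (fun a => Vanish.span (hV a) hm (Submodule.subset_span (by simp)))
    have hT0 : T = ∅ := by
      rw [Finset.eq_empty_iff_forall_notMem]
      intro t ht
      have h3 := hT t ht
      rw [Nat.cast_zero] at h3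
      exact absurd h3 (by
        rw [← Cardinal.succ_zero]
        simp)
    rw [hT0, Finset.sum_empty, add_zero] at hrat
    exact hrat
  · rw [li_iff] at hli
    push Not at hli
    obtain ⟨x, y, h0, h1⟩ := hli
    have hx : x ≠ 0 := by
      rintro rfl
      rw [zero_smul, zero_add, smul_eq_zero] at h0
      exact h0.elim (h1 rfl) hA
    have hy : y ≠ 0 := by
      rintro rfl
      rw [zero_smul, add_zero, smul_eq_zero] at h0
      exact h0.elim hx hB
    have h2 : B = fun i => (-(x⁻¹ * y)) * A i := by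
      funext i
      have h3 := congrFun h0 i
      simp only [Pi.add_apply, Pi.smul_apply, smul_eq_mul, Pi.zero_apply] at h3
      have h4 : x * B i = -(y * A i) := by linear_combination h3
      calc B i = x⁻¹ * (x * B i) := by rw [inv_mul_cancel_left₀ hx]
        _ = _ := by rw [h4]; ring
    rw [h2, (hCYC K κ E).1 A _ (neg_ne_zero.2 (mul_ne_zero (inv_ne_zero hx) hy)), sub_self]
    exact zero_mem _

/-- the reduction of a point on a line of high contact -/
theorem stepS (hR : S_R) (hCYC : T_CYC2) (hCO : S_CO) {g : α → MvPolynomial κ K} {d : α → ℕ}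
    (hg : ∀ b, (g b).IsHomogeneous (d b)) {M : Type} [Field M] [Algebra K M]
    {v : Place K M} (hE : IsFG 0 K v.RF) {A L e : κ → M} {R : κ → v.RF} (hA : ∀ i, v.Reg (A i))
    (hL : ∀ i, v.Reg (L i)) (hLA : v.red (∑ i, L i * A i) ≠ 0) (hRed : IsRed v e R)
    (hge : ∀ b, aeval e (g b) = 0) (hgA : ∀ b, aeval (fun i => v.red (A i)) (g b) = 0)
    (hco : ∀ b, ∀ j, 0 < j → j < d b →
      co (g b) A (fun i => e i - (∑ n, L n * e n) / (∑ n, L n * A n) * A i) j = 0) :
    cyc K R - cyc K (fun i => v.red (A i)) ∈ RatS K 0 g := by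
  have hRed' := hRed
  obtain ⟨hR0, c, hc, hcR⟩ := hRed'
  set s : M := ∑ i, L i * A i with hs
  have regsum : ∀ x y : κ → M, (∀ i, v.Reg (x i)) → (∀ i, v.Reg (y i)) → v.Reg (∑ i, x i * y i) := by
    intro x y hx hy
    exact (regSub v).sum_mem fun i _ => v.reg_mul (hx i) (hy i)
  have hsreg : v.Reg s := regsum L A hL hA
  obtain ⟨hs0, -, hsi⟩ := reg_inv hsreg hLA
  set r : M := (∑ n, L n * (c * e n)) * s⁻¹ with hr
  have hrreg : v.Reg r := v.reg_mul (regsum L _ hL fun i => (hcR i).1) hsi
  set w : κ → M := fun i => c * e i - r * A i with hw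
  have hwreg : ∀ i, v.Reg (w i) := fun i => reg_sub (hcR i).1 (v.reg_mul hrreg (hA i))
  have hwred : ∀ i, v.red (w i) = R i - v.red r * v.red (A i) := fun i => by
    rw [hw]
    simp only
    rw [v.red_sub (hcR i).1 (v.reg_mul hrreg (hA i)), (hcR i).2, v.red_mul hrreg (hA i)]
  have hw2 : w = fun i => c * (e i - (∑ n, L n * e n) / s * A i) := by
    funext i
    have h1 : (∑ n, L n * (c * e n)) = c * ∑ n, L n * e n := by
      rw [Finset.mul_sum]
      exact Finset.sum_congr rfl fun n _ => by ring
    rw [hw, hr, h1, div_eq_mul_inv]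
    ring
  have hRv : ∀ b, aeval R (g b) = 0 := fun b => by
    have h1 := (red_aeval (fun i => (hcR i).1) (g b)).2
    have h2 : aeval (fun i => c * e i) (g b) = 0 := by
      rw [Pool.Agent.Z15P.T2h62.J15.aeval_smul (hg b), hge, mul_zero]
    have h3 : (fun i => v.red (c * e i)) = R := funext fun i => (hcR i).2
    rw [h2, v.red_zero, h3] at h1
    exact h1.symm
  have hV : ∀ b, Vanish (g b) (fun i => v.red (A i)) (fun i => v.red (w i)) := by
    intro b
    obtain ⟨h1, h2, h3, -, h5, -⟩ := hCO K κ (g b) (d b) (hg b)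
    have hmid : ∀ j, 0 < j → j < d b →
        co (g b) (fun i => v.red (A i)) (fun i => v.red (w i)) j = 0 := by
      intro j hj0 hj
      rw [← (red_co hCO (hg b) v hA hwreg j).2, hw2, (h5 M A _ c j hj.le).1, hco b j hj0 hj, mul_zero,
        v.red_zero]
    rw [h2]
    intro j hj
    rcases Nat.eq_zero_or_pos j with rfl | hj0
    · rw [(h3 v.RF _ _).1]
      exact hgA b
    rcases lt_or_eq_of_le hj with hj1 | rfl
    · exact hmid j hj0 hj1
    · have h6 := h1 v.RF (fun i => v.red (A i)) (fun i => v.red (w i)) (v.red r) 1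
      have h7 : (fun i => v.red r * v.red (A i) + 1 * v.red (w i)) = R := by
        funext i
        rw [hwred]
        ring
      rw [h7, hRv b, Finset.sum_range_succ, Finset.sum_eq_zero, zero_add, Nat.sub_self, pow_zero, mul_one,
        one_pow, mul_one] at h6
      · exact h6.symm
      · intro i hi
        rw [Finset.mem_range] at hi
        rcases Nat.eq_zero_or_pos i with rfl | hi0
        · rw [(h3 v.RF _ _).1, hgA b, zero_mul, zero_mul]
        · rw [hmid i hi0 hi, zero_mul, zero_mul]
  have hA0 : (fun i => v.red (A i)) ≠ 0 := by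
    intro h0
    apply hLA
    have h1 : ∀ x : Finset κ, v.Reg (∑ i ∈ x, L i * A i) ∧ v.red (∑ i ∈ x, L i * A i) = 0 := by
      classical
      intro x
      induction x using Finset.induction_on with
      | empty => exact ⟨by rw [Finset.sum_empty]; exact v.reg_zero, by rw [Finset.sum_empty]; exact v.red_zero⟩
      | insert a x ha ih =>
        rw [Finset.sum_insert ha]
        refine ⟨v.reg_add (v.reg_mul (hL a) (hA a)) ih.1, ?_⟩
        rw [v.red_add (v.reg_mul (hL a) (hA a)) ih.1, ih.2, v.red_mul (hL a) (hA a), congrFun h0 a,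
          Pi.zero_apply, mul_zero, zero_add]
    exact (h1 Finset.univ).2
  refine compareS hR hCYC hE hA0 hR0 hV ?_
  rw [Submodule.mem_span_pair]
  refine ⟨v.red r, 1, ?_⟩
  funext i
  simp only [Pi.add_apply, Pi.smul_apply, smul_eq_mul]
  rw [hwred]
  ring

omit [Infinite K] in
/-- a linear functional which is not zero at two given vectors -/
theorem exists_functional {P p : κ → K} (hP : P ≠ 0) (hp : p ≠ 0) :
    ∃ L : κ → K, ∑ i, L i * P i ≠ 0 ∧ ∑ i, L i * p i ≠ 0 := by
  classical
  obtain ⟨i, hi⟩ : ∃ i, P i ≠ 0 := by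
    by_contra h
    push Not at h
    exact hP (funext h)
  obtain ⟨j, hj⟩ : ∃ j, p j ≠ 0 := by
    by_contra h
    push Not at h
    exact hp (funext h)
  have hs : ∀ (a : κ) (x : κ → K), ∑ n, (Pi.single a 1 : κ → K) n * x n = x a := by
    intro a x
    rw [Finset.sum_eq_single a]
    · rw [Pi.single_eq_same, one_mul]
    · intro b _ hb
      rw [Pi.single_eq_of_ne hb, zero_mul]
    · intro h
      exact absurd (Finset.mem_univ a) h
  by_cases h1 : p i = 0
  · by_cases h2 : P j = 0
    · refine ⟨fun n => (Pi.single i 1 : κ → K) n + (Pi.single j 1 : κ → K) n, ?_, ?_⟩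
      · simp only [add_mul, Finset.sum_add_distrib, hs, h2, add_zero]
        exact hi
      · simp only [add_mul, Finset.sum_add_distrib, hs, h1, zero_add]
        exact hj
    · exact ⟨Pi.single j 1, by rw [hs]; exact h2, by rw [hs]; exact hj⟩
  · exact ⟨Pi.single i 1, by rw [hs]; exact hi, by rw [hs]; exact h1⟩

end

section

variable {K κ α : Type} [Field K] [Infinite K] [Fintype κ] [Fintype α]

/-- a curve of points on lines of high contact -/
theorem exists_curve (hCO : S_CO) (hZ : S_ZERO) {g : α → MvPolynomial κ K} {d : α → ℕ}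
    (hd : ∀ b, 0 < d b) (hg : ∀ b, (g b).IsHomogeneous (d b)) (hκ : ∑ b, d b + 1 ≤ Fintype.card κ)
    {E : Type} [Field E] [Algebra K E] [FiniteDimensional K E] (P p L : κ → E) :
    ∃ (M : Type) (_ : Field M) (_ : Algebra E M) (_ : Algebra K M) (_ : IsScalarTower K E M) (τ : M)
      (e : κ → M), IsFG 1 K M ∧ Transcendental E τ ∧ e ≠ 0 ∧ (∀ b, aeval e (g b) = 0) ∧
      ∀ b, ∀ j, 0 < j → j < d b →
        co (g b) (fun i => algebraMap E M (P i) + τ * algebraMap E M (p i))
          (fun i => e i - (∑ n, algebraMap E M (L n) * e n) /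
            (∑ n, algebraMap E M (L n) * (algebraMap E M (P n) + τ * algebraMap E M (p n))) *
            (algebraMap E M (P i) + τ * algebraMap E M (p i))) j = 0 := by
  classical
  have hcE : Infinite E := Infinite.of_injective _ (algebraMap K E).injective
  have hcR : Infinite (RatFunc E) :=
    Infinite.of_injective _ (algebraMap E (RatFunc E)).injective
  obtain ⟨z, hz⟩ : ∃ z : κ → RatFunc E, z = fun i =>
    algebraMap E (RatFunc E) (P i) + RatFunc.X * algebraMap E (RatFunc E) (p i) := ⟨_, rfl⟩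
  obtain ⟨lz, hlz⟩ : ∃ lz : RatFunc E, lz = ∑ n, algebraMap E (RatFunc E) (L n) * z n := ⟨_, rfl⟩
  obtain ⟨φ, hφ⟩ : ∃ φ : κ → κ → RatFunc E, φ = fun n i =>
    (Pi.single n 1 : κ → RatFunc E) i - algebraMap E (RatFunc E) (L n) / lz * z i := ⟨_, rfl⟩
  choose Hc hHc1 hHc2 using fun (b : α) (j : ℕ) =>
    (hCO K κ (g b) (d b) (hg b)).2.2.2.2.2.2 (RatFunc E) κ z φ j
  obtain ⟨M, _, _, e, hfin, he0, he⟩ := hZ (RatFunc E) κ (α ⊕ Σ b : α, Fin (d b - 1))
    (Sum.elim (fun b => map (algebraMap K (RatFunc E)) (g b)) (fun x => Hc x.1 (x.2 + 1)))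
    (Sum.elim d (fun x => x.2 + 1)) (by
      rintro (b | x)
      · exact hd b
      · exact Nat.succ_pos _) (by
      rintro (b | x)
      · exact (hg b).map _
      · exact hHc1 _ _) (by
      rw [Fintype.card_sum, Fintype.card_sigma]
      simp only [Fintype.card_fin]
      have h1 : Fintype.card α + ∑ b, (d b - 1) = ∑ b, d b := by
        rw [Fintype.card_eq_sum_ones, ← Finset.sum_add_distrib]
        exact Finset.sum_congr rfl fun b _ => by have := hd b; omega
      omega)
  let _ : Algebra E M := ((algebraMap (RatFunc E) M).comp (algebraMap E (RatFunc E))).toAlgebra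
  have s2 : IsScalarTower E (RatFunc E) M := IsScalarTower.of_algebraMap_eq fun _ => rfl
  let _ : Algebra K M := ((algebraMap E M).comp (algebraMap K E)).toAlgebra
  have s3 : IsScalarTower K E M := IsScalarTower.of_algebraMap_eq fun _ => rfl
  have s1 : IsScalarTower K (RatFunc E) M := IsScalarTower.of_algebraMap_eq fun a => by
    rw [IsScalarTower.algebraMap_apply K E M, IsScalarTower.algebraMap_apply E (RatFunc E) M,
      ← IsScalarTower.algebraMap_apply K E (RatFunc E)]
  have hess : Algebra.EssFiniteType K M := by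
    have h1 : Algebra.EssFiniteType E (RatFunc E) := (Pool.Agent.Z15P.T2h69.H15.isFF_ratFunc E).ess
    have h2 : Algebra.EssFiniteType K (RatFunc E) := Algebra.EssFiniteType.comp K E (RatFunc E)
    exact Algebra.EssFiniteType.comp K (RatFunc E) M
  have htr : Algebra.trdeg K M = (1 : ℕ) := by
    have h1 : Algebra.trdeg E (RatFunc E) = 1 := (Pool.Agent.Z15P.T2h69.H15.isFF_ratFunc E).trdeg
    have h2 : Algebra.trdeg K E + Algebra.trdeg E (RatFunc E) = Algebra.trdeg K (RatFunc E) :=
      trdeg_add_eq K E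
    have h3 : Algebra.trdeg K (RatFunc E) + Algebra.trdeg (RatFunc E) M = Algebra.trdeg K M :=
      trdeg_add_eq K (RatFunc E)
    rw [← h3, ← h2, h1, trdeg_eq_zero, trdeg_eq_zero, zero_add, add_zero, Nat.cast_one]
  have hτ : Transcendental E (algebraMap (RatFunc E) M RatFunc.X) := by
    intro h
    exact RatFunc.transcendental_X (K := E) ((isAlgebraic_algebraMap_iff
      (algebraMap (RatFunc E) M).injective).1 h)
  have hzM : ∀ i, algebraMap (RatFunc E) M (z i) =
      algebraMap E M (P i) + algebraMap (RatFunc E) M RatFunc.X * algebraMap E M (p i) := by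
    intro i
    rw [hz, map_add, map_mul, ← IsScalarTower.algebraMap_apply E (RatFunc E) M,
      ← IsScalarTower.algebraMap_apply E (RatFunc E) M]
  have hlzM : algebraMap (RatFunc E) M lz = ∑ n, algebraMap E M (L n) * (algebraMap E M (P n) +
      algebraMap (RatFunc E) M RatFunc.X * algebraMap E M (p n)) := by
    rw [hlz, map_sum]
    refine Finset.sum_congr rfl fun n _ => ?_
    rw [map_mul, hzM, ← IsScalarTower.algebraMap_apply E (RatFunc E) M]
  refine ⟨M, inferInstance, inferInstance, inferInstance, s3, algebraMap (RatFunc E) M RatFunc.X,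
    e, ⟨hess, htr⟩, hτ, he0, fun b => ?_, fun b j hj0 hj => ?_⟩
  · have h1 := he (Sum.inl b)
    simp only [Sum.elim_inl] at h1
    rwa [aeval_map_algebraMap] at h1
  · have h1 := he (Sum.inr ⟨b, ⟨j - 1, by omega⟩⟩)
    simp only [Sum.elim_inr] at h1
    have h2 : j - 1 + 1 = j := by omega
    rw [h2, hHc2 b j M e] at h1
    rw [← h1]
    congr 1
    · funext i
      exact (hzM i).symm
    · funext i
      have h3 : ∀ n, e n * algebraMap (RatFunc E) M (φ n i) = (Pi.single n 1 : κ → M) i * e n -
          algebraMap E M (L n) * e n * (algebraMap (RatFunc E) M lz)⁻¹ *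
            algebraMap (RatFunc E) M (z i) := by
        intro n
        have h4 : algebraMap (RatFunc E) M ((Pi.single n 1 : κ → RatFunc E) i) =
            (Pi.single n 1 : κ → M) i := by
          by_cases h : i = n
          · subst h
            rw [Pi.single_eq_same, Pi.single_eq_same, map_one]
          · rw [Pi.single_eq_of_ne h, Pi.single_eq_of_ne h, map_zero]
        rw [hφ]
        simp only [map_sub, map_mul, map_div₀]
        rw [h4, ← IsScalarTower.algebraMap_apply E (RatFunc E) M, div_eq_mul_inv]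
        ring
      rw [Finset.sum_congr rfl fun n _ => h3 n, Finset.sum_sub_distrib, ← Finset.sum_mul,
        ← Finset.sum_mul, hlzM, hzM]
      congr 1
      · rw [Finset.sum_eq_single i]
        · rw [Pi.single_eq_same, one_mul]
        · intro b _ hb
          rw [Pi.single_eq_of_ne (Ne.symm hb), zero_mul]
        · intro h
          exact absurd (Finset.mem_univ i) h
      · rw [div_eq_mul_inv]

theorem penS (hR : S_R) (hCYC : T_CYC2) (hCO : S_CO) (hZ : S_ZERO) {g : α → MvPolynomial κ K}
    {d : α → ℕ} (hd : ∀ b, 0 < d b) (hg : ∀ b, (g b).IsHomogeneous (d b))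
    (hκ : ∑ b, d b + 1 ≤ Fintype.card κ) {E : Type} [Field E] [Algebra K E]
    [FiniteDimensional K E] {P : κ → E} (hP : P ≠ 0) (hGP : ∀ b, aeval P (g b) = 0) {p : κ → K}
    (hp : p ≠ 0) (hGp : ∀ b, aeval p (g b) = 0) : cyc K P ∈ Mult (RatS K 0 g) (cyc K p) := by
  classical
  have halg : Algebra.IsAlgebraic K E := inferInstance
  obtain ⟨p1, hp1⟩ : ∃ p1 : κ → E, p1 = fun i => algebraMap K E (p i) := ⟨_, rfl⟩
  have hp10 : p1 ≠ 0 := by
    intro h0
    apply hp
    funext i
    have h1 := congrFun h0 i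
    rw [hp1] at h1
    exact (map_eq_zero _).1 h1
  have hGp1 : ∀ b, aeval p1 (g b) = 0 := fun b => by
    have h1 : aeval (fun i => algebraMap K E (p i)) (g b) = algebraMap K E (aeval p (g b)) :=
      (comp_aeval_apply _ (IsScalarTower.toAlgHom K K E) (g b)).symm
    rw [hp1, h1, hGp, map_zero]
  obtain ⟨L, hLP, hLp⟩ := exists_functional (K := E) hP hp10
  obtain ⟨M, _, _, _, _, τ, e, hM, hτ, he0, hge, hco⟩ := exists_curve hCO hZ hd hg hκ P p1 L
  have hFF : IsFF K M := ⟨hM.1, by rw [hM.2, Nat.cast_one]⟩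
  have hτK : Transcendental K τ := fun h => hτ (h.tower_top E)
  have hτ0 : τ ≠ 0 := by
    rintro rfl
    exact hτK isAlgebraic_zero
  obtain ⟨A, hA⟩ : ∃ A : κ → M, A = fun i => algebraMap E M (P i) + τ * algebraMap E M (p1 i) := ⟨_, rfl⟩
  obtain ⟨LM, hLM⟩ : ∃ LM : κ → M, LM = fun i => algebraMap E M (L i) := ⟨_, rfl⟩
  have hco' : ∀ b, ∀ j, 0 < j → j < d b →
      co (g b) A (fun i => e i - (∑ n, LM n * e n) / (∑ n, LM n * A n) * A i) j = 0 := by
    intro b j hj0 hj
    rw [hA, hLM]
    exact hco b j hj0 hj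
  -- the reductions
  have hex : ∀ v : Place K M, ∃ R : κ → v.RF, IsRed v e R := by
    intro v
    obtain ⟨j, hj, hr⟩ := exists_prim v he0
    refine ⟨_, ?_, (e j)⁻¹, inv_ne_zero hj, fun i => ⟨hr i, rfl⟩⟩
    intro h0
    have h1 := congrFun h0 j
    simp only [inv_mul_cancel₀ hj, v.red_one, Pi.zero_apply] at h1
    exact one_ne_zero h1
  choose R hRed using hex
  have hRF : ∀ v : Place K M, IsFG 0 K v.RF := fun v => by
    have h1 : FiniteDimensional K v.RF := inferInstance
    have h2 : Algebra.IsAlgebraic K v.RF := inferInstance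
    exact ⟨inferInstance, by rw [trdeg_eq_zero, Nat.cast_zero]⟩
  have hmain : ∀ v : Place K M, ∃ n : ℕ, 0 < n ∧
      (0 < v.ord τ → cyc K (R v) - n • cyc K P ∈ RatS K 0 g) ∧
      (v.ord τ < 0 → cyc K (R v) - n • cyc K p ∈ RatS K 0 g) := by
    intro v
    let _ : Algebra E v.RF := constAlg v
    have u1 : IsScalarTower K E v.RF := IsScalarTower.of_algebraMap_eq fun a => by
      change _ = v.red (algebraMap E M (algebraMap K E a))
      rw [← IsScalarTower.algebraMap_apply K E M]
      rfl
    have hres : ∀ x : E, v.red (algebraMap E M x) = algebraMap E v.RF x := fun _ => rfl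
    have u2 : FiniteDimensional E v.RF := FiniteDimensional.right K E v.RF
    have hzero : ∀ x : κ → E, (∀ b, aeval x (g b) = 0) →
        ∀ b, aeval (fun i => algebraMap E v.RF (x i)) (g b) = 0 := fun x hx b => by
      have h1 : aeval (fun i => algebraMap E v.RF (x i)) (g b) = algebraMap E v.RF (aeval x (g b)) :=
        (comp_aeval_apply _ (IsScalarTower.toAlgHom K E v.RF) (g b)).symm
      rw [h1, hx, map_zero]
    have hLreg : ∀ i, v.Reg (LM i) := fun i => by rw [hLM]; exact reg_alg v _
    have hsum : ∀ B : κ → M, ∀ x : κ → E, (∀ i, v.Reg (B i) ∧ v.red (B i) = algebraMap E v.RF (x i)) →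
        v.red (∑ i, LM i * B i) = algebraMap E v.RF (∑ i, L i * x i) := by
      intro B x hB
      have h1 : ∀ y : Finset κ, v.Reg (∑ i ∈ y, LM i * B i) ∧
          v.red (∑ i ∈ y, LM i * B i) = algebraMap E v.RF (∑ i ∈ y, L i * x i) := by
        intro y
        induction y using Finset.induction_on with
        | empty => exact ⟨by rw [Finset.sum_empty]; exact v.reg_zero, by
            rw [Finset.sum_empty, Finset.sum_empty, map_zero]; exact v.red_zero⟩
        | insert a y ha ih =>
          rw [Finset.sum_insert ha, Finset.sum_insert ha]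
          refine ⟨v.reg_add (v.reg_mul (hLreg a) (hB a).1) ih.1, ?_⟩
          rw [v.red_add (v.reg_mul (hLreg a) (hB a).1) ih.1, ih.2, v.red_mul (hLreg a) (hB a).1, (hB a).2,
            map_add, map_mul, hLM]
          rfl
      exact (h1 Finset.univ).2
    rcases lt_trichotomy (v.ord τ) 0 with h | h | h
    · refine ⟨Module.finrank K v.RF, Module.finrank_pos, fun h' => absurd h' (by omega), fun _ => ?_⟩
      have hτi : v.Reg τ⁻¹ := Or.inr (by rw [v.ord_inv]; omega)
      have hτi0 : v.red τ⁻¹ = 0 := (v.red_eq_zero_iff hτi).2 (Or.inr (by rw [v.ord_inv]; omega))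
      have hA1 : ∀ i, τ⁻¹ * A i = τ⁻¹ * algebraMap E M (P i) + algebraMap E M (p1 i) := by
        intro i
        rw [hA]
        field_simp
      have hA2 : ∀ i, v.Reg (τ⁻¹ * A i) ∧ v.red (τ⁻¹ * A i) = algebraMap E v.RF (p1 i) := by
        intro i
        rw [hA1, v.red_add (v.reg_mul hτi (reg_alg v _)) (reg_alg v _), v.red_mul hτi (reg_alg v _), hτi0,
          zero_mul, zero_add]
        exact ⟨v.reg_add (v.reg_mul hτi (reg_alg v _)) (reg_alg v _), rfl⟩
      have h1 := stepS hR hCYC hCO hg (hRF v) (A := fun i => τ⁻¹ * A i) (fun i => (hA2 i).1) hLreg (by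
        rw [hsum _ p1 hA2]
        exact (map_ne_zero _).2 hLp) (hRed v) hge (by
        have h2 : (fun i => v.red (τ⁻¹ * A i)) = fun i => algebraMap E v.RF (p1 i) :=
          funext fun i => (hA2 i).2
        rw [h2]
        exact hzero p1 hGp1) (by
        intro b j hj0 hj
        have h2 : (∑ n, LM n * (τ⁻¹ * A n)) = τ⁻¹ * ∑ n, LM n * A n := by
          rw [Finset.mul_sum]
          exact Finset.sum_congr rfl fun n _ => by ring
        have h3 : (fun i => e i - (∑ n, LM n * e n) / (∑ n, LM n * (τ⁻¹ * A n)) * (τ⁻¹ * A i)) =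
            fun i => e i - (∑ n, LM n * e n) / (∑ n, LM n * A n) * A i := by
          funext i
          rw [h2]
          field_simp
        rw [h3, ((hCO K κ (g b) (d b) (hg b)).2.2.2.2.1 M A _ τ⁻¹ j hj.le).2.1, hco' b j hj0 hj,
          mul_zero])
      have h2 : cyc K (fun i => v.red (τ⁻¹ * A i)) = Module.finrank K v.RF • cyc K p := by
        rw [← (hCYC K κ K).2.2.1 v.RF p]
        congr 1
        funext i
        rw [(hA2 i).2, hp1]
        exact (IsScalarTower.algebraMap_apply K E v.RF (p i)).symm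
      rwa [h2] at h1
    · exact ⟨1, one_pos, fun h' => absurd h' (by omega), fun h' => absurd h' (by omega)⟩
    · refine ⟨Module.finrank E v.RF, Module.finrank_pos, fun _ => ?_, fun h' => absurd h' (by omega)⟩
      have hτi : v.Reg τ := Or.inr (by omega)
      have hτi0 : v.red τ = 0 := (v.red_eq_zero_iff hτi).2 (Or.inr (by omega))
      have hA2 : ∀ i, v.Reg (A i) ∧ v.red (A i) = algebraMap E v.RF (P i) := by
        intro i
        rw [hA]
        simp only
        rw [v.red_add (reg_alg v _) (v.reg_mul hτi (reg_alg v _)), v.red_mul hτi (reg_alg v _), hτi0,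
          zero_mul, add_zero]
        exact ⟨v.reg_add (reg_alg v _) (v.reg_mul hτi (reg_alg v _)), rfl⟩
      have h1 := stepS hR hCYC hCO hg (hRF v) (A := A) (fun i => (hA2 i).1) hLreg (by
        rw [hsum _ P hA2]
        exact (map_ne_zero _).2 hLP) (hRed v) hge (by
        have h2 : (fun i => v.red (A i)) = fun i => algebraMap E v.RF (P i) :=
          funext fun i => (hA2 i).2
        rw [h2]
        exact hzero P hGP) hco'
      have h2 : cyc K (fun i => v.red (A i)) = Module.finrank E v.RF • cyc K P := by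
        rw [← (hCYC K κ E).2.2.1 v.RF P]
        congr 1
        funext i
        rw [(hA2 i).2]
      rwa [h2] at h1
  choose n hn0 hnpos hnneg using hmain
  -- the divisor of `τ`
  have hfs : {v : Place K M | v.ord τ ≠ 0 ∧ cyc K (R v) ≠ 0}.Finite :=
    (finite_support (k := K) τ).subset fun v hv => hv.1
  set T := hfs.toFinset with hT
  have hTm : ∀ v, v ∈ T ↔ v.ord τ ≠ 0 ∧ cyc K (R v) ≠ 0 := fun v => by
    rw [hT, Set.Finite.mem_toFinset, Set.mem_ofPred_eq]
  have hD : ∑ v ∈ T, v.ord τ • cyc K (R v) ∈ RatS K 0 g := by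
    refine AddSubgroup.subset_closure ⟨M, inferInstance, inferInstance, e, τ, hM,
      he0, hge, hτ0, T, R, hRed, fun v => ?_, rfl⟩
    rw [hTm]
    have h1 := (hRF v).2
    constructor
    · exact fun h => ⟨h1, h⟩
    · exact fun h => h.2
  -- the sum
  have hsum : ∑ v ∈ T, v.ord τ • (cyc K (R v) - (if 0 < v.ord τ then n v • cyc K P else n v • cyc K p)) ∈
      RatS K 0 g := by
    refine sum_mem fun v hv => zsmul_mem ?_ _
    rw [hTm] at hv
    split_ifs with h
    · exact hnpos v h
    · exact hnneg v (by have := hv.1; omega)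
  have hsum2 : ∑ v ∈ T, v.ord τ • (if 0 < v.ord τ then n v • cyc K P else n v • cyc K p) ∈
      RatS K 0 g := by
    have h1 := sub_mem hD hsum
    rw [← Finset.sum_sub_distrib] at h1
    have h2 : ∀ v ∈ T, v.ord τ • cyc K (R v) -
        v.ord τ • (cyc K (R v) - (if 0 < v.ord τ then n v • cyc K P else n v • cyc K p)) =
        v.ord τ • (if 0 < v.ord τ then n v • cyc K P else n v • cyc K p) := by
      intro v _
      rw [smul_sub]
      abel
    rwa [Finset.sum_congr rfl h2] at h1
  have hsplit : ∑ v ∈ T, v.ord τ • (if 0 < v.ord τ then n v • cyc K P else n v • cyc K p) =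
      (∑ v ∈ T.filter (fun v => 0 < v.ord τ), v.ord τ * n v) • cyc K P +
      (∑ v ∈ T.filter (fun v => ¬ 0 < v.ord τ), v.ord τ * n v) • cyc K p := by
    rw [← Finset.sum_filter_add_sum_filter_not T (fun v => 0 < v.ord τ), Finset.sum_smul, Finset.sum_smul]
    congr 1
    · refine Finset.sum_congr rfl fun v hv => ?_
      rw [if_pos (Finset.mem_filter.1 hv).2, mul_smul, natCast_zsmul]
    · refine Finset.sum_congr rfl fun v hv => ?_
      rw [if_neg (Finset.mem_filter.1 hv).2, mul_smul, natCast_zsmul]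
  rw [hsplit] at hsum2
  -- positivity
  have hpos : 0 < ∑ v ∈ T.filter (fun v => 0 < v.ord τ), v.ord τ * n v := by
    obtain ⟨Z, hZ', -, hZ3⟩ := zeros (k := K) (f := τ) hτK
    have hne : Z.Nonempty := by
      by_contra hne
      rw [Finset.not_nonempty_iff_eq_empty] at hne
      rw [hne, Finset.sum_empty] at hZ3
      have := IsFF.finite (k := K) hτK
      have h1 : 0 < Module.finrank (IntermediateField.adjoin K {τ}) M := Module.finrank_pos
      omega
    obtain ⟨v0, hv0⟩ := hne
    rw [hZ'] at hv0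
    have hcyc : cyc K (R v0) ≠ 0 := by
      unfold cyc
      rw [Ne, Finsupp.single_eq_zero]
      have h1 : FiniteDimensional (ratioField K (R v0)) v0.RF := FiniteDimensional.right K _ v0.RF
      have h2 : 0 < Module.finrank (ratioField K (R v0)) v0.RF := Module.finrank_pos
      omega
    have hmem : v0 ∈ T.filter (fun v => 0 < v.ord τ) := by
      rw [Finset.mem_filter, hTm]
      exact ⟨⟨by omega, hcyc⟩, hv0⟩
    refine Finset.sum_pos (fun v hv => ?_) ⟨v0, hmem⟩
    have h1 := (Finset.mem_filter.1 hv).2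
    have h2 := hn0 v
    positivity
  obtain ⟨N, hN⟩ := Int.eq_ofNat_of_zero_le hpos.le
  refine ⟨N, by omega, -(∑ v ∈ T.filter (fun v => ¬ 0 < v.ord τ), v.ord τ * n v), ?_⟩
  rw [neg_smul, sub_neg_eq_add, ← natCast_zsmul, ← hN]
  exact hsum2

/-- a field of transcendence degree zero with a nonzero cycle is finite -/
theorem finite_of_cyc (hCYC : T_CYC2) {E : Type} [Field E] [Algebra K E] {P : κ → E}
    (htr : Algebra.trdeg K E = 0) (hc0 : cyc K P ≠ 0) : FiniteDimensional K E := by
  have hess := ((hCYC K κ E).2.2.2.1 P hc0).1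
  have halg : Algebra.IsAlgebraic K E := by
    rw [← trdeg_eq_zero_iff, htr]
  obtain ⟨s, hs⟩ := (IntermediateField.fg_top_iff (F := K) (E := E)).2 hess
  have h2 : FiniteDimensional K (IntermediateField.adjoin K (s : Set E)) :=
    IntermediateField.finiteDimensional_adjoin (fun x _ => (halg.isAlgebraic x).isIntegral)
  rw [hs] at h2
  exact (IntermediateField.topEquiv (F := K) (E := E)).toLinearEquiv.finiteDimensional

end

theorem t_PENi : S_PENi := by
  intro hR hCYC hCO hZ K _ _ κ α _ _ g d hd hg hκ p hp hgp E _ _ P htr hP hgP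
  by_cases hc0 : cyc K P = 0
  · rw [hc0]; exact zero_mem _
  have hfin : FiniteDimensional K E := finite_of_cyc hCYC htr hc0
  exact penS hR hCYC hCO hZ hd hg hκ hP hgP hp (fun b => by
    have h := hgp b
    rw [← MvPolynomial.coe_aeval_eq_eval] at h
    exact h)

end Pool.Agent.Z15P.Z15.S
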