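import Pool.Agent.Z15P.Z15.S.Defs

/-!
Statements of lemmas (tasks of helper15, round 3: systems of forms, one-cycles).
-/

set_option autoImplicit false

open FF FF.PP MvPolynomial Pool.Agent.Z15P.Z15.H Pool.Agent.Z15P.Z15.J Pool.Agent.Z15P.Z15.J.Stm

namespace Pool.Agent.Z15P.Z15.S

/-! ### general tools (helper15 does these) -/

def S_G : Prop :=
  ∀ (K : Type) [Field K] [Infinite K] (ι E : Type) [Fintype ι] [Field E] [Algebra K E] (n : ℕ),
    IsFG n K E → ∀ (γ : Type) (F : γ → MvPolynomial ι K) (A B : ι → E),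
    LinearIndependent E ![A, B] → (∀ g, Vanish (F g) A B) →
    ∀ (h : E) (T : Finset (Place K E)) (a b : ∀ t : Place K E, ι → t.RF), h ≠ 0 →
    (∀ t, IsLim t A B (a t) (b t)) → (∀ t ∈ T, Algebra.trdeg K t.RF + 1 = n) →
    (∀ t, Algebra.trdeg K t.RF + 1 = n → t.ord h ≠ 0 → cyc K (gen (a t) (b t)) ≠ 0 → t ∈ T) →
    ∑ t ∈ T, t.ord h • cyc K (gen (a t) (b t)) ∈ RatS K n F

def S_R : Prop :=
  ∀ (K : Type) [Field K] [Infinite K] (ι E : Type) [Fintype ι] [Field E] [Algebra K E] (n : ℕ),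
    IsFG n K E → ∀ (γ : Type) (F : γ → MvPolynomial ι K) (A B : ι → E),
    LinearIndependent E ![A, B] → (∀ g, Vanish (F g) A B) →
    ∃ (T : Finset (Place K E)) (m : Place K E → ℤ) (a b : ∀ t : Place K E, ι → t.RF),
      (∀ t, IsLim t A B (a t) (b t)) ∧ (∀ t ∈ T, Algebra.trdeg K t.RF + 1 = n) ∧
      cyc K A - cyc K B + ∑ t ∈ T, m t • cyc K (gen (a t) (b t)) ∈ RatS K n F

def S_TR : Prop :=
  ∀ (K0 K1 : Type) [Field K0] [Field K1] [Algebra K0 K1] [Infinite K0] (ι ν α β : Type) [Fintype ι]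
    [Fintype ν] (δ q : ℕ), IsFG δ K0 K1 → ∀ (F : α → MvPolynomial ι K0) (G : β → MvPolynomial ν K1)
    (d : β → ℕ), (∀ b, (G b).IsHomogeneous (d b)) → ∀ (z : ι → K1) (φ : ν → ι → K1), z ≠ 0 →
    GoodS F G z φ →
    ∀ (Φ : (Set (MvPolynomial ν K1) →₀ ℤ) →+ (Set (MvPolynomial ι K0) →₀ ℤ)), IsFamMap z φ Φ →
    ∀ (M : Type) [Field M] [Algebra K1 M] (Q : ν → M) (h : M) (D : Set (MvPolynomial ν K1) →₀ ℤ),
      IsFG (q + 1) K1 M → Q ≠ 0 → (∀ b, aeval Q (G b) = 0) → h ≠ 0 → IsDivisor K1 q Q h D →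
      Φ D ∈ RatS K0 (q + δ + 1) F ⊔ AddSubgroup.closure (VTS K0 (q + δ) G z φ)

def S_U : Prop :=
  ∀ (K0 K1 : Type) [Field K0] [Field K1] [Algebra K0 K1] [Infinite K0] (ι ν α β : Type) [Fintype ι]
    [Fintype ν] (δ q : ℕ), IsFG δ K0 K1 → ∀ (F : α → MvPolynomial ι K0) (G : β → MvPolynomial ν K1)
    (d : β → ℕ), (∀ b, (G b).IsHomogeneous (d b)) → ∀ (z : ι → K1) (φ : ν → ι → K1), z ≠ 0 →
    GoodS F G z φ →
    ∀ (Φ : (Set (MvPolynomial ν K1) →₀ ℤ) →+ (Set (MvPolynomial ι K0) →₀ ℤ)), IsFamMap z φ Φ →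
    ∀ D ∈ RatS K1 q G, Φ D ∈ RatS K0 (q + δ + 1) F ⊔ AddSubgroup.closure (VTS K0 (q + δ) G z φ)

/-- the case of a finite extension `K1` of `K0` -/
def S_UA : Prop :=
  ∀ (K0 K1 : Type) [Field K0] [Field K1] [Algebra K0 K1] [Infinite K0] (ι ν α β : Type) [Fintype ι]
    [Fintype ν] (q : ℕ), IsFG 0 K0 K1 → ∀ (F : α → MvPolynomial ι K0) (G : β → MvPolynomial ν K1)
    (d : β → ℕ), (∀ b, (G b).IsHomogeneous (d b)) → ∀ (z : ι → K1) (φ : ν → ι → K1), z ≠ 0 →
    GoodS F G z φ →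
    ∀ (Φ : (Set (MvPolynomial ν K1) →₀ ℤ) →+ (Set (MvPolynomial ι K0) →₀ ℤ)), IsFamMap z φ Φ →
    ∀ D ∈ RatS K1 q G, Φ D ∈ RatS K0 (q + 1) F

/-! ### coefficients -/

/-- facts on the coefficients `co F P w j` of a form `F` of degree `d` -/
def S_CO : Prop :=
  ∀ (k : Type) [Field k] [Infinite k] (ι : Type) [Fintype ι] (F : MvPolynomial ι k) (d : ℕ),
    F.IsHomogeneous d →
    -- (1) expansion
    (∀ (A : Type) [CommRing A] [Algebra k A] (P w : ι → A) (α β : A),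
      aeval (fun i => α * P i + β * w i) F =
        ∑ j ∈ Finset.range (d + 1), co F P w j * α ^ (d - j) * β ^ j) ∧
    -- (2) lines
    (∀ (E : Type) [Field E] [Algebra k E] (P w : ι → E),
      Vanish F P w ↔ ∀ j ≤ d, co F P w j = 0) ∧
    -- (3) the first and the last coefficient
    (∀ (A : Type) [CommRing A] [Algebra k A] (P w : ι → A),
      co F P w 0 = aeval P F ∧ co F P w d = aeval w F) ∧
    -- (4) homomorphisms
    (∀ (A B : Type) [CommRing A] [Algebra k A] [CommRing B] [Algebra k B] (φ : A →ₐ[k] B)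
      (P w : ι → A) (j : ℕ), co F (fun i => φ (P i)) (fun i => φ (w i)) j = φ (co F P w j)) ∧
    -- (5) scaling and symmetry
    (∀ (A : Type) [CommRing A] [Algebra k A] (P w : ι → A) (c : A), ∀ j ≤ d,
      co F P (fun i => c * w i) j = c ^ j * co F P w j ∧
      co F (fun i => c * P i) w j = c ^ (d - j) * co F P w j ∧ co F w P (d - j) = co F P w j) ∧
    -- (6) the base field
    (∀ (A K : Type) [Field K] [Algebra k K] [CommRing A] [Algebra k A] [Algebra K A]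
      [IsScalarTower k K A] (P w : ι → A) (j : ℕ),
      co (map (algebraMap k K) F) P w j = co F P w j) ∧
    -- (7) dependence on `w`
    (∀ (K1 : Type) [Field K1] [Algebra k K1] (ν : Type) [Fintype ν] (z : ι → K1) (φ : ν → ι → K1)
      (j : ℕ), ∃ H : MvPolynomial ν K1, H.IsHomogeneous j ∧
        ∀ (A : Type) [CommRing A] [Algebra K1 A] [Algebra k A] [IsScalarTower k K1 A] (e : ν → A),
          aeval e H = co F (fun i => algebraMap K1 A (z i))
            (fun i => ∑ n, e n * algebraMap K1 A (φ n i)) j)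

/-- common zeros over finite extensions -/
def S_ZERO : Prop :=
  ∀ (E : Type) [Field E] [Infinite E] (ν B : Type) [Fintype ν] [Fintype B]
    (H : B → MvPolynomial ν E) (j : B → ℕ), (∀ b, 0 < j b) → (∀ b, (H b).IsHomogeneous (j b)) →
    Fintype.card B < Fintype.card ν →
    ∃ (E' : Type) (_ : Field E') (_ : Algebra E E') (e : ν → E'), FiniteDimensional E E' ∧ e ≠ 0 ∧
      ∀ b, aeval e (H b) = 0

/-- solution of systems of equations for coefficients; `F b` are forms over `k`, `P b` vectors over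
`E`; the solution is defined over a finite extension of `E` -/
def S_SOLVE : Prop :=
  ∀ (k E : Type) [Field k] [Infinite k] [Field E] [Algebra k E] (ι B : Type) [Fintype ι] [Fintype B]
    (F : B → MvPolynomial ι k) (d : B → ℕ), (∀ b, (F b).IsHomogeneous (d b)) → ∀ (P : B → ι → E)
    (j : B → ℕ), (∀ b, 0 < j b ∧ j b ≤ d b) → ∀ S : Finset ι, Fintype.card B < S.card →
    ∃ (E' : Type) (_ : Field E') (_ : Algebra E E') (_ : Algebra k E') (_ : IsScalarTower k E E')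
      (w : ι → E'), FiniteDimensional E E' ∧ w ≠ 0 ∧ Supp S w ∧
      ∀ b, co (F b) (fun i => algebraMap E E' (P b i)) w (j b) = 0

/-- the coefficients of a form with few mixed monomials -/
def S_MIX : Prop :=
  ∀ (k : Type) [Field k] (ι : Type) [Fintype ι] (F : MvPolynomial ι k) (d m : ℕ) (X Y : Finset ι),
    F.IsHomogeneous d → Disjoint X Y → Mix F X Y m →
    ∀ (A : Type) [CommRing A] [Algebra k A] (z B y : ι → A), Supp X z → Supp Y y →
      ∀ j, j + m < d → co F z (fun i => B i + y i) j = co F z B j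

/-! ### Roitman's theorem for systems -/

def S_PEN : Prop :=
  ∀ (K : Type) [Field K] [Infinite K] (κ α : Type) [Fintype κ] [Fintype α]
    (g : α → MvPolynomial κ K) (d : α → ℕ), (∀ a, 0 < d a) → (∀ a, (g a).IsHomogeneous (d a)) →
    ∑ a, d a + 1 ≤ Fintype.card κ → ∀ p : κ → K, p ≠ 0 → (∀ a, eval p (g a) = 0) →
    ∀ (E : Type) [Field E] [Algebra K E] (P : κ → E), Algebra.trdeg K E = 0 → P ≠ 0 →
      (∀ a, aeval P (g a) = 0) → cyc K P ∈ Mult (RatS K 0 g) (cyc K p)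

/-! ### One-cycles -/

/-- it suffices to consider lines through points of `X` (with support in `X`) -/
def S_SB1 : Prop :=
  ∀ (k : Type) [Field k] [IsAlgClosed k] [Infinite k] (ι α : Type) [Fintype ι] [Fintype α]
    (F : α → MvPolynomial ι k) (d m : α → ℕ) (X Y : Finset ι), (∀ a, (F a).IsHomogeneous (d a)) →
    (∀ a, m a < d a) → Disjoint X Y → (∀ a, Mix (F a) X Y (m a)) →
    ∑ a, (d a + m a) + 1 ≤ X.card → ∀ p : ι → k, p ≠ 0 → Supp Y p → (∀ a, eval p (F a) = 0) →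
    ∀ (K : Type) [Field K] [Algebra k K] (c0 : Set (MvPolynomial ι K) →₀ ℤ),
      (∀ (κ : Type) [Field κ] [Algebra K κ], Algebra.trdeg K κ = 0 →
        ∀ z B : ι → κ, Supp X z → LinearIndependent κ ![z, B] →
        (∀ a, Vanish (map (algebraMap k K) (F a)) z B) →
        cyc K (gen z B) ∈ Mult (RatS K 1 fun a => map (algebraMap k K) (F a)) c0) →
      ∀ (E : Type) [Field E] [Algebra K E] (P : ι → E), Algebra.trdeg K E = (1 : ℕ) → P ≠ 0 →
        (∀ a, aeval P (map (algebraMap k K) (F a)) = 0) →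
        cyc K P ∈ Mult (RatS K 1 fun a => map (algebraMap k K) (F a)) c0

/-- lines through a fixed point `z` of `X` -/
def S_L1 : Prop :=
  ∀ (K : Type) [Field K] [Infinite K] (ι α : Type) [Fintype ι] [Fintype α] [Nonempty α]
    (F : α → MvPolynomial ι K) (d m : α → ℕ) (X Y : Finset ι), (∀ a, (F a).IsHomogeneous (d a)) →
    (∀ a, m a < d a) → Disjoint X Y → (∀ a, Mix (F a) X Y (m a)) →
    ∑ a, d a + 1 ≤ X.card → ∑ a, ∑ i ∈ Finset.range (m a + 1), (d a - i) ≤ Y.card →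
    ∀ (κ : Type) [Field κ] [Algebra K κ], Algebra.trdeg K κ = 0 →
      ∀ z B u : ι → κ, Supp X z → Supp Y u → u ≠ 0 → LinearIndependent κ ![z, B] →
      (∀ a, Vanish (F a) z B) → (∀ a, Vanish (F a) z u) →
      cyc K (gen z B) ∈ Mult (RatS K 1 F) (cyc K (gen z u))

/-- lines through a fixed point `u` of `Y` and points of `X` -/
def S_L2 : Prop :=
  ∀ (K : Type) [Field K] [Infinite K] (ι α : Type) [Fintype ι] [Fintype α]
    (F : α → MvPolynomial ι K) (d m : α → ℕ) (X Y : Finset ι), (∀ a, (F a).IsHomogeneous (d a)) →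
    (∀ a, m a < d a) → Disjoint X Y → (∀ a, Mix (F a) X Y (m a)) →
    ∑ a, (d a + ∑ i ∈ Finset.range (m a + 1), i) + 1 ≤ X.card →
    ∀ (κ : Type) [Field κ] [Algebra K κ], Algebra.trdeg K κ = 0 →
      ∀ z z' u : ι → κ, Supp X z → Supp X z' → Supp Y u → u ≠ 0 → z ≠ 0 → z' ≠ 0 →
      (∀ a, Vanish (F a) z u) → (∀ a, Vanish (F a) z' u) →
      cyc K (gen z u) ∈ Mult (RatS K 1 F) (cyc K (gen z' u))

/-- the main theorem -/
def S_MAIN : Prop :=
  ∀ (k : Type) [Field k] [IsAlgClosed k] [Infinite k] (ι α : Type) [Fintype ι] [Fintype α]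
    [Nonempty α]
    (F : α → MvPolynomial ι k) (d m : α → ℕ) (X Y : Finset ι), (∀ a, (F a).IsHomogeneous (d a)) →
    (∀ a, 2 ≤ d a) → (∀ a, m a < d a) → Disjoint X Y → (∀ a, Mix (F a) X Y (m a)) →
    ∑ a, (d a + ∑ i ∈ Finset.range (m a + 1), i) + 1 ≤ X.card →
    ∑ a, ∑ i ∈ Finset.range (m a + 1), (d a - i) ≤ Y.card →
    ∃ Λ : ℕ → ι → k, (LinearIndependent k fun j : Fin 2 => Λ j) ∧
      (∀ (a : α) (c : Fin 2 → k), eval (fun i => ∑ j, c j * Λ j i) (F a) = 0) ∧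
      ∀ (K : Type) [Field K] [Algebra k K],
        (∀ (E : Type) [Field E] [Algebra K E] (P : ι → E), Algebra.trdeg K E = (1 : ℕ) → P ≠ 0 →
          (∀ a, aeval P (map (algebraMap k K) (F a)) = 0) →
          cyc K P ∈ Mult (RatS K 1 fun a => map (algebraMap k K) (F a))
            (lin K (fun i j => algebraMap k K (Λ i j)) 1)) ∧
        ∀ (E : Type) [Field E] [Algebra K E] (P : ι → E), Algebra.trdeg K E = (0 : ℕ) → P ≠ 0 →
          (∀ a, aeval P (map (algebraMap k K) (F a)) = 0) →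
          cyc K P ∈ Mult (RatS K 0 fun a => map (algebraMap k K) (F a))
            (lin K (fun i j => algebraMap k K (Λ i j)) 0)

/-! ### implications -/

def S_SOLVEi : Prop := S_CO → S_ZERO → S_SOLVE
def S_PENi : Prop := S_R → T_CYC2 → S_CO → S_ZERO → S_PEN
def S_SB1i : Prop := S_R → T_CYC2 → T_LIM2 → S_CO → S_SOLVE → S_MIX → S_SB1
def S_L1i : Prop := S_UA → T_WD → T_CYC2 → S_CO → S_SOLVE → S_MIX → S_PEN → S_L1
def S_L2i : Prop := S_UA → T_WD → T_CYC2 → S_CO → S_MIX → S_PEN → S_L2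
def S_MAINi : Prop :=
  S_SB1 → S_L1 → S_L2 → S_PEN → T_LIN → T_CYC2 → S_CO → S_SOLVE → S_MIX → S_MAIN

end Pool.Agent.Z15P.Z15.S
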