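import Pool.Agent.Z15P.Z15.S.Stm
import Pool.Agent.Z15P.T2h69.H15.Exp

/-!
The coefficients `co F P w j`.
-/

set_option autoImplicit false
set_option linter.all false

open FF FF.PP MvPolynomial Pool.Agent.Z15P.Z15.H Pool.Agent.Z15P.Z15.J

namespace Pool.Agent.Z15P.Z15.S

section

variable {k ι A : Type} [Field k] [CommRing A] [Algebra k A] (F : MvPolynomial ι k)

/-- `F(P + X w)` -/
noncomputable def pl (P w : ι → A) : Polynomial A :=
  aeval (fun i => Polynomial.C (P i) + Polynomial.X * Polynomial.C (w i)) F

theorem co_eq (P w : ι → A) (j : ℕ) : co F P w j = (pl F P w).coeff j := rfl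

theorem pl_map {B : Type} [CommRing B] [Algebra k B] (φ : A →ₐ[k] B) (P w : ι → A) :
    pl F (fun i => φ (P i)) (fun i => φ (w i)) = (pl F P w).map φ.toRingHom := by
  unfold pl
  have h1 : (Polynomial.mapAlgHom φ : Polynomial A →ₐ[k] Polynomial B)
      (aeval (fun i => Polynomial.C (P i) + Polynomial.X * Polynomial.C (w i)) F) =
      aeval (fun i => Polynomial.mapAlgHom φ
        (Polynomial.C (P i) + Polynomial.X * Polynomial.C (w i))) F := by
    rw [← AlgHom.comp_apply, comp_aeval]
  have h2 : (Polynomial.mapAlgHom φ : Polynomial A →ₐ[k] Polynomial B)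
      (aeval (fun i => Polynomial.C (P i) + Polynomial.X * Polynomial.C (w i)) F) =
      (aeval (fun i => Polynomial.C (P i) + Polynomial.X * Polynomial.C (w i)) F : Polynomial A).map
        φ.toRingHom := rfl
  rw [← h2, h1]
  congr 2
  funext i
  simp

theorem co_map {B : Type} [CommRing B] [Algebra k B] (φ : A →ₐ[k] B) (P w : ι → A) (j : ℕ) :
    co F (fun i => φ (P i)) (fun i => φ (w i)) j = φ (co F P w j) := by
  rw [co_eq, co_eq, pl_map, Polynomial.coeff_map]
  rfl

variable {F}

theorem co_expand {d : ℕ} (hF : F.IsHomogeneous d) (P w : ι → A) (α β : A) :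
    aeval (fun i => α * P i + β * w i) F =
      ∑ j ∈ Finset.range (d + 1), co F P w j * α ^ (d - j) * β ^ j := by
  classical
  set g : ι → MvPolynomial (Fin 2) A := fun i => X 0 * C (P i) + X 1 * C (w i) with hg
  have hQh : (aeval g F : MvPolynomial (Fin 2) A).IsHomogeneous d := by
    have h1 := hF.aeval g (n := 1) (fun i => by
      refine IsHomogeneous.add ?_ ?_
      · exact (isHomogeneous_X _ _).mul (isHomogeneous_C _ _)
      · exact (isHomogeneous_X _ _).mul (isHomogeneous_C _ _))
    rwa [one_mul] at h1
  have key : ∀ (B : Type) [CommRing B] [Algebra k B] [Algebra A B] [IsScalarTower k A B] (a b : B),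
      aeval (fun i => a * algebraMap A B (P i) + b * algebraMap A B (w i)) F =
        ∑ j ∈ Finset.range (d + 1),
          algebraMap A B ((aeval g F : MvPolynomial (Fin 2) A).coeff (T2h69.H15.ex d j)) *
            a ^ (d - j) * b ^ j := by
    intro B _ _ _ _ a b
    rw [← T2h69.H15.hom2_expand _ hQh (algebraMap A B) a b]
    have h1 : ((aeval ![a, b] : MvPolynomial (Fin 2) A →ₐ[A] B).restrictScalars k) (aeval g F) =
        aeval (fun i => ((aeval ![a, b] : MvPolynomial (Fin 2) A →ₐ[A] B).restrictScalars k) (g i)) F := by
      rw [← AlgHom.comp_apply, comp_aeval]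
    have h2 : ((aeval ![a, b] : MvPolynomial (Fin 2) A →ₐ[A] B).restrictScalars k) (aeval g F) =
        eval₂ (algebraMap A B) ![a, b] (aeval g F) := rfl
    rw [← h2, h1]
    congr 2
    funext i
    change _ = aeval ![a, b] (g i)
    simp [hg]
  have hco : ∀ j ∈ Finset.range (d + 1),
      co F P w j = (aeval g F : MvPolynomial (Fin 2) A).coeff (T2h69.H15.ex d j) := by
    intro j hj
    have h1 := key (Polynomial A) 1 Polynomial.X
    have h2 : (fun i => (1 : Polynomial A) * algebraMap A (Polynomial A) (P i) +
        Polynomial.X * algebraMap A (Polynomial A) (w i)) =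
        fun i => Polynomial.C (P i) + Polynomial.X * Polynomial.C (w i) := by
      funext i
      rw [one_mul]
      rfl
    rw [h2] at h1
    unfold co
    rw [h1, Polynomial.finset_sum_coeff, Finset.sum_eq_single j]
    · rw [one_pow, mul_one]
      change (Polynomial.C _ * Polynomial.X ^ j).coeff j = _
      rw [Polynomial.coeff_C_mul_X_pow, if_pos rfl]
    · intro i _ hi
      rw [one_pow, mul_one]
      change (Polynomial.C _ * Polynomial.X ^ i).coeff j = _
      rw [Polynomial.coeff_C_mul_X_pow, if_neg (Ne.symm hi)]
    · intro h
      exact absurd hj h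
  have h1 := key A α β
  simp only [Algebra.algebraMap_self, RingHom.id_apply] at h1
  rw [h1]
  refine Finset.sum_congr rfl fun j hj => ?_
  rw [hco j hj]

/-- the polynomial identity -/
theorem pl_expand {d : ℕ} (hF : F.IsHomogeneous d) (P w : ι → A) (α β : Polynomial A) :
    aeval (fun i => α * Polynomial.C (P i) + β * Polynomial.C (w i)) F =
      ∑ j ∈ Finset.range (d + 1), Polynomial.C (co F P w j) * α ^ (d - j) * β ^ j := by
  have h1 := co_expand hF (fun i => Polynomial.C (P i)) (fun i => Polynomial.C (w i)) α β
  rw [h1]
  refine Finset.sum_congr rfl fun j _ => ?_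
  have h2 := co_map F (IsScalarTower.toAlgHom k A (Polynomial A)) P w j
  have h3 : ∀ x : A, (IsScalarTower.toAlgHom k A (Polynomial A)) x = Polynomial.C x := fun x => rfl
  simp only [h3] at h2
  rw [h2]

theorem co_zero_last {d : ℕ} (hF : F.IsHomogeneous d) (P w : ι → A) :
    co F P w 0 = aeval P F ∧ co F P w d = aeval w F := by
  constructor
  · have h1 := co_expand hF P w 1 0
    rw [Finset.sum_eq_single 0] at h1
    · simpa using h1.symm
    · intro j _ hj
      rw [zero_pow hj, mul_zero]
    · intro h
      simp at h
  · have h1 := co_expand hF P w 0 1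
    rw [Finset.sum_eq_single d] at h1
    · simpa using h1.symm
    · intro j hj hjd
      rw [Finset.mem_range] at hj
      rw [zero_pow (by omega), mul_zero, zero_mul]
    · intro h
      simp at h

theorem co_scale {d : ℕ} (hF : F.IsHomogeneous d) (P w : ι → A) (c : A) (j : ℕ) (hj : j ≤ d) :
    co F P (fun i => c * w i) j = c ^ j * co F P w j ∧
      co F (fun i => c * P i) w j = c ^ (d - j) * co F P w j ∧ co F w P (d - j) = co F P w j := by
  have hjr : j ∈ Finset.range (d + 1) := Finset.mem_range.2 (by omega)
  refine ⟨?_, ?_, ?_⟩
  · have h1 := pl_expand hF P w 1 (Polynomial.C c * Polynomial.X)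
    have h2 : (fun i => (1 : Polynomial A) * Polynomial.C (P i) +
        (Polynomial.C c * Polynomial.X) * Polynomial.C (w i)) =
        fun i => Polynomial.C (P i) + Polynomial.X * Polynomial.C (c * w i) := by
      funext i
      rw [Polynomial.C_mul]
      ring
    rw [h2] at h1
    unfold co at *
    rw [h1, Polynomial.finset_sum_coeff, Finset.sum_eq_single j]
    · rw [one_pow, mul_one, mul_pow, ← Polynomial.C_pow, ← mul_assoc, ← Polynomial.C_mul,
        Polynomial.coeff_C_mul_X_pow, if_pos rfl, mul_comm]
    · intro i _ hi
      rw [one_pow, mul_one, mul_pow, ← Polynomial.C_pow, ← mul_assoc, ← Polynomial.C_mul,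
        Polynomial.coeff_C_mul_X_pow, if_neg (Ne.symm hi)]
    · intro h
      exact absurd hjr h
  · have h1 := pl_expand hF P w (Polynomial.C c) Polynomial.X
    have h2 : (fun i => Polynomial.C c * Polynomial.C (P i) +
        Polynomial.X * Polynomial.C (w i)) =
        fun i => Polynomial.C (c * P i) + Polynomial.X * Polynomial.C (w i) := by
      funext i
      rw [Polynomial.C_mul]
    rw [h2] at h1
    unfold co at *
    rw [h1, Polynomial.finset_sum_coeff, Finset.sum_eq_single j]
    · rw [← Polynomial.C_pow, ← Polynomial.C_mul, Polynomial.coeff_C_mul_X_pow, if_pos rfl, mul_comm]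
    · intro i _ hi
      rw [← Polynomial.C_pow, ← Polynomial.C_mul, Polynomial.coeff_C_mul_X_pow, if_neg (Ne.symm hi)]
    · intro h
      exact absurd hjr h
  · have h1 := pl_expand hF P w Polynomial.X 1
    have h2 : (fun i => Polynomial.X * Polynomial.C (P i) +
        (1 : Polynomial A) * Polynomial.C (w i)) =
        fun i => Polynomial.C (w i) + Polynomial.X * Polynomial.C (P i) := by
      funext i
      ring
    rw [h2] at h1
    unfold co at *
    rw [h1, Polynomial.finset_sum_coeff, Finset.sum_eq_single j]
    · rw [one_pow, mul_one, Polynomial.coeff_C_mul_X_pow, if_pos rfl]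
    · intro i hi hij
      rw [Finset.mem_range] at hi
      rw [one_pow, mul_one, Polynomial.coeff_C_mul_X_pow, if_neg (by omega)]
    · intro h
      exact absurd hjr h

end

/-- polynomials whose coefficient of `X ^ j` is homogeneous of degree `j` -/
noncomputable def grd (k ν L : Type) [Field k] [Field L] [Algebra k L] :
    Subalgebra k (Polynomial (MvPolynomial ν L)) where
  carrier := {p | ∀ j, (p.coeff j).IsHomogeneous j}
  mul_mem' := by
    classical
    intro p q hp hq s
    rw [Polynomial.coeff_mul]
    refine IsHomogeneous.sum _ _ _ fun ij hij => ?_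
    rw [← Finset.HasAntidiagonal.mem_antidiagonal.1 hij]
    exact (hp _).mul (hq _)
  add_mem' := by
    intro p q hp hq s
    rw [Polynomial.coeff_add]
    exact (hp s).add (hq s)
  algebraMap_mem' := by
    classical
    intro z s
    have h1 : algebraMap k (Polynomial (MvPolynomial ν L)) z = Polynomial.C (C (algebraMap k L z)) := rfl
    rw [h1, Polynomial.coeff_C]
    split_ifs with h
    · rw [h]
      exact isHomogeneous_C _ _
    · exact isHomogeneous_zero _ _ _

theorem t_CO : S_CO := by
  classical
  intro k _ _ ι _ F d hF
  refine ⟨?_, ?_, ?_, ?_, ?_, ?_, ?_⟩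
  · intro A _ _ P w α β
    exact co_expand hF P w α β
  · intro E _ _ P w
    constructor
    · intro h j _
      have h1 := h (RatFunc E) 1 RatFunc.X
      have h2 : (aeval (fun i => (1 : RatFunc E) * algebraMap E (RatFunc E) (P i) +
          RatFunc.X * algebraMap E (RatFunc E) (w i)) F : RatFunc E) =
          algebraMap (Polynomial E) (RatFunc E) (pl F P w) := by
        unfold pl
        have h3 : (IsScalarTower.toAlgHom k (Polynomial E) (RatFunc E))
            (aeval (fun i => Polynomial.C (P i) + Polynomial.X * Polynomial.C (w i)) F) =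
            aeval (fun i => (IsScalarTower.toAlgHom k (Polynomial E) (RatFunc E))
              (Polynomial.C (P i) + Polynomial.X * Polynomial.C (w i))) F := by
          rw [← AlgHom.comp_apply, comp_aeval]
        refine Eq.trans ?_ h3.symm
        congr 2
        funext i
        rw [one_mul]
        simp [RatFunc.algebraMap_X, RatFunc.algebraMap_C]
        exact mul_comm _ _
      rw [h2] at h1
      have h4 : pl F P w = 0 := by
        apply IsFractionRing.injective (Polynomial E) (RatFunc E)
        rw [h1, map_zero]
      rw [co_eq, h4, Polynomial.coeff_zero]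
    · intro h M _ _ _ _ α β
      rw [co_expand hF (fun i => algebraMap E M (P i)) (fun i => algebraMap E M (w i)) α β]
      refine Finset.sum_eq_zero fun j hj => ?_
      have h1 := co_map F (IsScalarTower.toAlgHom k E M) P w j
      have h2 : ∀ x : E, (IsScalarTower.toAlgHom k E M) x = algebraMap E M x := fun x => rfl
      simp only [h2] at h1
      rw [h1, h j (by rw [Finset.mem_range] at hj; omega), map_zero, zero_mul, zero_mul]
  · intro A _ _ P w
    exact co_zero_last hF P w
  · intro A B _ _ _ _ φ P w j
    exact co_map F φ P w j
  · intro A _ _ P w c j hj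
    exact co_scale hF P w c j hj
  · intro A K _ _ _ _ _ _ P w j
    unfold co
    rw [aeval_map_algebraMap]
  · intro K1 _ _ ν _ z φ j
    refine ⟨co F (fun i => (C (z i) : MvPolynomial ν K1)) (fun i => ∑ n, X n * C (φ n i)) j, ?_, ?_⟩
    · have key : ∀ G : MvPolynomial ι k,
          pl G (fun i => (C (z i) : MvPolynomial ν K1)) (fun i => ∑ n, X n * C (φ n i)) ∈
            grd k ν K1 := by
        intro G
        unfold pl
        induction G using MvPolynomial.induction_on with
        | C a =>
          rw [aeval_C]
          exact Subalgebra.algebraMap_mem _ _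
        | add p q hp hq =>
          rw [map_add]
          exact add_mem hp hq
        | mul_X p i hp =>
          rw [map_mul, aeval_X]
          refine mul_mem hp (add_mem ?_ ?_)
          · intro s
            rw [Polynomial.coeff_C]
            split_ifs with h
            · rw [h]
              exact isHomogeneous_C _ _
            · exact isHomogeneous_zero _ _ _
          · intro s
            rw [mul_comm, Polynomial.coeff_C_mul, Polynomial.coeff_X]
            split_ifs with h
            · rw [mul_one, ← h]
              refine IsHomogeneous.sum _ _ _ fun n _ => ?_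
              exact (isHomogeneous_X _ _).mul (isHomogeneous_C _ _)
            · rw [mul_zero]
              exact isHomogeneous_zero _ _ _
      exact key F j
    · intro A _ _ _ _ e
      have h1 := co_map F ((aeval e : MvPolynomial ν K1 →ₐ[K1] A).restrictScalars k)
        (fun i => (C (z i) : MvPolynomial ν K1)) (fun i => ∑ n, X n * C (φ n i)) j
      have h2 : ∀ x, ((aeval e : MvPolynomial ν K1 →ₐ[K1] A).restrictScalars k) x = aeval e x :=
        fun x => rfl
      simp only [h2] at h1
      rw [← h1]
      congr 1
      · funext i
        simp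
      · funext i
        simp [map_sum]

end Pool.Agent.Z15P.Z15.S
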