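import Pool.Agent.Z15P.Z15.S.Stm
import Pool.Agent.Z15P.T2h99.J.Tr

/-!
Families of lines and rational equivalence, for systems of forms (adapted from `T2h99/J/Tr.lean`).
-/

set_option autoImplicit false
set_option linter.all false

open FF FF.PP MvPolynomial Pool.Agent.Z15P.Z15.H Pool.Agent.Z15P.Z15.J Pool.Agent.Z15P.Z15.J.Stm Pool.Agent.Z15P.T2h99.J

namespace Pool.Agent.Z15P.Z15.S

theorem t_STR : S_G → T_GFIN → T_CYC2 → T_LIM2 → S_TR := by
  intro hGs hGf hC hL K0 K1 _ _ _ _ ι ν α β _ _ δ q hK1 F G d hG z φ hz hgood Φ hΦ M _ _ Q h D hM hQ0 hQ hh hD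
  classical
  let _ : Algebra K0 M := ((algebraMap K1 M).comp (algebraMap K0 K1)).toAlgebra
  have htow : IsScalarTower K0 K1 M := IsScalarTower.of_algebraMap_eq fun x => rfl
  have hc1 : Infinite K1 := Infinite.of_injective _ (algebraMap K0 K1).injective
  obtain ⟨T, R, hR, hT, rfl⟩ := hD
  have hFG : IsFG (q + δ + 1) K0 M := by
    constructor
    · have := hK1.1
      have := hM.1
      exact Algebra.EssFiniteType.comp K0 K1 M
    · rw [← trdeg_add_eq K0 K1 (A := M), hK1.2, hM.2]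
      norm_cast
      ring
  have hli : LinearIndependent M ![cst M z, lm φ Q] := hgood.1 M Q hQ0 hQ
  have hvan : ∀ a, Vanish (F a) (cst M z) (lm φ Q) := hgood.2 M Q hQ
  -- the limits
  have hlim : ∀ t : Place K0 M, ∃ ab : (ι → t.RF) × (ι → t.RF), IsLim t (cst M z) (lm φ Q) ab.1 ab.2 := by
    intro t
    obtain ⟨a, b, p, r, s, -, -, -, -, -, h1⟩ := (hL K0 ι M (cst M z) (lm φ Q) hli t).1
    exact ⟨(a, b), h1⟩
  choose ab hab using hlim
  have hfin := hGf K0 ι M (q + δ + 1) hFG (cst M z) (lm φ Q) hli h (fun t => (ab t).1) (fun t => (ab t).2) hh hab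
  set T2 := hfin.toFinset with hT2
  have hmem2 : ∀ t, t ∈ T2 ↔ Algebra.trdeg K0 t.RF + 1 = ((q + δ + 1 : ℕ) : Cardinal) ∧ t.ord h ≠ 0 ∧
      cyc K0 (gen (ab t).1 (ab t).2) ≠ 0 := fun t => by
    rw [hT2, Set.Finite.mem_toFinset]
    rfl
  have hsum := hGs K0 ι M (q + δ + 1) hFG α F (cst M z) (lm φ Q) hli hvan h T2 (fun t => (ab t).1)
    (fun t => (ab t).2) hh hab (fun t ht => ((hmem2 t).1 ht).1) (fun t h1 h2 h3 => (hmem2 t).2 ⟨h1, h2, h3⟩)
  -- the classes at the places over `K1`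
  have hcls : ∀ v : Place K1 M, Φ (cyc K1 (R v)) = cyc K0 (gen (ab (dn K0 v)).1 (ab (dn K0 v)).2) := by
    intro v
    let _ := algRF K0 v
    have := towRF K0 v
    rw [hΦ v.RF (R v) (hR v).1]
    have hz := fun b => red_scale_zero (hR v) (hG b) (hQ b)
    have hli' := hgood.1 v.RF (R v) (hR v).1 hz
    have h1 := lim_fam K0 (hR v) z φ _ _ rfl rfl hli'
    have h2 := (hL K0 ι M (cst M z) (lm φ Q) hli (dn K0 v)).2.2.1 _ _ _ _ (hab (dn K0 v)) h1
    exact (hC K0 ι (dn K0 v).RF).2.2.2.2.2.2.1 _ _ _ _ (hab (dn K0 v)).1 hli' h2.1 h2.2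
  -- transcendence degrees
  have htr : ∀ v : Place K1 M, Algebra.trdeg K0 (dn K0 v).RF = δ + Algebra.trdeg K1 v.RF := by
    intro v
    let _ := algRF K0 v
    have := towRF K0 v
    rw [← hK1.2, trdeg_add_eq K0 K1 (A := v.RF)]
    rfl
  have hcast : ((q + δ + 1 : ℕ) : Cardinal.{0}) = ((q + δ : ℕ) : Cardinal.{0}) + 1 := by push_cast; ring
  rw [map_sum]
  have e1 : ∑ v ∈ T, Φ (v.ord h • cyc K1 (R v)) =
      ∑ t ∈ T2.filter (fun t => ∀ x : K1, t.ord (algebraMap K1 M x) = 0),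
        t.ord h • cyc K0 (gen (ab t).1 (ab t).2) := by
    refine Finset.sum_bij_ne_zero (fun v _ _ => dn K0 v) ?_ ?_ ?_ ?_
    · intro v hv hne
      rw [map_zsmul, hcls] at hne
      refine Finset.mem_filter.2 ⟨(hmem2 _).2 ⟨?_, ((hT v).1 hv).2.1, ?_⟩, fun x => ?_⟩
      · rw [htr, ((hT v).1 hv).1]
        push_cast
        ring
      · intro h0
        apply hne
        rw [h0, smul_zero]
      · by_cases hx : x = 0
        · rw [hx, map_zero]
          exact v.ord_zero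
        · exact v.ord_const hx
    · intro v _ _ v' _ _ hvv
      have h1 : (dn K0 v).ord = (dn K0 v').ord := congrArg Place.ord hvv
      exact Place.ext h1
    · intro t ht hne
      obtain ⟨ht2, ht3⟩ := Finset.mem_filter.1 ht
      obtain ⟨h1, h2, h3⟩ := (hmem2 t).1 ht2
      have hdn : dn K0 (up t ht3) = t := rfl
      have hcl : Φ (cyc K1 (R (up t ht3))) = cyc K0 (gen (ab t).1 (ab t).2) := hcls (up t ht3)
      refine ⟨up t ht3, (hT _).2 ⟨?_, h2, ?_⟩, ?_, hdn⟩
      · have h4 := htr (up t ht3)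
        rw [hdn] at h4
        rw [h4, hcast, Cardinal.add_one_inj] at h1
        push_cast at h1
        rw [add_comm] at h1
        exact (Cardinal.add_right_inj_of_lt_aleph0 (Cardinal.natCast_lt_aleph0 (n := δ))).1 h1
      · intro h0
        apply h3
        rw [← hcl, h0, map_zero]
      · rw [map_zsmul, hcl]
        exact hne
    · intro v _ _
      rw [map_zsmul, hcls]
      rfl
  have e2 := Finset.sum_filter_add_sum_filter_not T2 (fun t => ∀ x : K1, t.ord (algebraMap K1 M x) = 0)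
    (fun t => t.ord h • cyc K0 (gen (ab t).1 (ab t).2))
  have e3 : ∑ t ∈ T2.filter (fun t => ¬ ∀ x : K1, t.ord (algebraMap K1 M x) = 0),
      t.ord h • cyc K0 (gen (ab t).1 (ab t).2) ∈ AddSubgroup.closure (VTS K0 (q + δ) G z φ) := by
    refine sum_mem fun t ht => zsmul_mem (AddSubgroup.subset_closure ?_) _
    obtain ⟨ht2, ht3⟩ := Finset.mem_filter.1 ht
    obtain ⟨h1, -, -⟩ := (hmem2 t).1 ht2
    push Not at ht3
    rw [hcast, Cardinal.add_one_inj] at h1
    exact ⟨M, _, _, _, htow, t, Q, (ab t).1, (ab t).2, hQ0, hQ, ht3, h1, hab t, rfl⟩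
  rw [e1, eq_sub_of_add_eq e2]
  exact sub_mem (AddSubgroup.mem_sup_left hsum) (AddSubgroup.mem_sup_right e3)

theorem t_SU : S_TR → S_U := by
  intro hTR K0 K1 _ _ _ _ ι ν α β _ _ δ q hK1 F G d hG z φ hz hgood Φ hΦ D hD
  induction hD using AddSubgroup.closure_induction with
  | mem D hD =>
    obtain ⟨M, _, _, Q, h, hM, hQ0, hQ, hh, hD⟩ := hD
    exact hTR K0 K1 ι ν α β δ q hK1 F G d hG z φ hz hgood Φ hΦ M Q h D hM hQ0 hQ hh hD
  | zero => rw [map_zero]; exact zero_mem _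
  | add x y _ _ hx hy => rw [map_add]; exact add_mem hx hy
  | neg x _ hx => rw [map_neg]; exact neg_mem hx

theorem t_SUA : S_U → S_UA := by
  intro hU K K1 _ _ _ _ ι ν α β _ _ q hK1 F G d hG z φ hz hgood Φ hΦ D hD
  have hK : IsFG 0 K K1 := hK1
  have h1 := hU K K1 ι ν α β 0 q hK F G d hG z φ hz hgood Φ hΦ D hD
  have h2 : VTS K (q + 0) G z φ = ∅ := by
    rw [Set.eq_empty_iff_forall_notMem]
    rintro c ⟨M, _, a1, a0, htow, t, Q, a, b, _, _, ⟨x, hx⟩, _⟩
    apply hx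
    by_cases hx0 : x = 0
    · rw [hx0, map_zero]
      exact t.ord_zero
    · have hAlg : Algebra.IsAlgebraic K K1 := by
        have h3 := hK1.2
        rw [Nat.cast_zero] at h3
        exact trdeg_eq_zero_iff.1 h3
      have h3 : IsAlgebraic K (algebraMap K1 M x) := (hAlg.isAlgebraic x).algebraMap
      exact t.ord_eq_zero_of_isAlgebraic (by rwa [Ne, map_eq_zero]) h3
  rw [h2, AddSubgroup.closure_empty, sup_bot_eq] at h1
  exact h1

end Pool.Agent.Z15P.Z15.S
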