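import Pool.Agent.Z15P.Z15.J.All
import Pool.Agent.Z15P.Z15.S.Div
import Pool.Agent.Z15P.Z15.S.Tr
import Pool.Agent.Z15P.Z15.S.Co
import Pool.Agent.Z15P.Z15.S.Pen
import Pool.Agent.Z15P.Z15.S.L1
import Pool.Agent.Z15P.T2h59.Z15.Mix
import Pool.Agent.Z15P.T2h59.Z15.Zero
import Pool.Agent.Z15P.T2h59.Z15.L2i
import Pool.Agent.Z15P.T2h59.Z15.SB1i
import Pool.Agent.Z15P.T2h92.S15.MAINi

/-!
Assembly.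
-/

set_option autoImplicit false

open FF FF.PP MvPolynomial Pool.Agent.Z15P.Z15.H Pool.Agent.Z15P.Z15.J Pool.Agent.Z15P.Z15.J.Stm Pool.Agent.Z15P.T2h99.J
  Pool.Agent.Z15P.T2h62.J15

namespace Pool.Agent.Z15P.Z15.S

theorem a_SR : S_R := t_SR t_FIN t_CYC2 t_ABH t_J_LIM2

theorem a_SU : S_U :=
  t_SU (t_STR (t_SG t_CYC2 t_ABH) (t_GFIN t_FIN t_CYC2 t_ABH) t_CYC2 t_J_LIM2)

theorem a_SUA : S_UA := t_SUA a_SU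

theorem a_ZERO : S_ZERO := Pool.Agent.Z15P.T2h59.Z15.t_S_ZERO

theorem a_MIX : S_MIX := Pool.Agent.Z15P.T2h59.Z15.t_S_MIX

theorem a_SOLVE : S_SOLVE := Pool.Agent.Z15P.T2h59.Z15.t_S_SOLVEi t_CO a_ZERO

theorem a_PEN : S_PEN := t_PENi a_SR t_CYC2 t_CO a_ZERO

theorem a_SB1 : S_SB1 := Pool.Agent.Z15P.T2h59.Z15.t_S_SB1i a_SR t_CYC2 t_J_LIM2 t_CO a_SOLVE a_MIX

theorem a_L1 : S_L1 := t_L1i a_SUA t_WD t_CYC2 t_CO a_SOLVE a_MIX a_PEN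

theorem a_L2 : S_L2 := Pool.Agent.Z15P.T2h59.Z15.t_S_L2i a_SUA t_WD t_CYC2 t_CO a_MIX a_PEN

theorem a_MAIN : S_MAIN :=
  Pool.Agent.Z15P.T2h92.S15.s_MAINi a_SB1 a_L1 a_L2 a_PEN t_LIN t_CYC2 t_CO a_SOLVE a_MIX

end Pool.Agent.Z15P.Z15.S
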