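import Pool.Agent.Z15P.Z15.J.Stm

/-!
Cycles on varieties defined by systems of forms.
-/

set_option autoImplicit false

open FF FF.PP MvPolynomial Pool.Agent.Z15P.Z15.H Pool.Agent.Z15P.Z15.J Pool.Agent.Z15P.Z15.J.Stm

namespace Pool.Agent.Z15P.Z15.S

section

variable (K : Type) [Field K] {ι α : Type}

/-- The cycles of dimension `l` on the projective variety `F a = 0` for all `a`, over `K`, which are
rationally equivalent to zero. -/
noncomputable def RatS (l : ℕ) (F : α → MvPolynomial ι K) :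
    AddSubgroup (Set (MvPolynomial ι K) →₀ ℤ) :=
  AddSubgroup.closure {D | ∃ (M : Type) (_ : Field M) (_ : Algebra K M) (Q : ι → M) (h : M),
    IsFG (l + 1) K M ∧ Q ≠ 0 ∧ (∀ a, aeval Q (F a) = 0) ∧ h ≠ 0 ∧ IsDivisor K l Q h D}

end

/-- elements which are multiples of `c0` modulo torsion and the subgroup `R` -/
def Mult {A : Type} [AddCommGroup A] (R : AddSubgroup A) (c0 : A) : AddSubgroup A where
  carrier := {c | ∃ N : ℕ, 0 < N ∧ ∃ m : ℤ, N • c - m • c0 ∈ R}
  zero_mem' := ⟨1, one_pos, 0, by rw [smul_zero, zero_smul, sub_zero]; exact zero_mem _⟩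
  add_mem' := by
    rintro x y ⟨N, hN, m, hx⟩ ⟨N', hN', m', hy⟩
    refine ⟨N * N', Nat.mul_pos hN hN', N' * m + N * m', ?_⟩
    have h : (N * N') • (x + y) - ((N' : ℤ) * m + N * m') • c0 =
        N' • (N • x - m • c0) + N • (N' • y - m' • c0) := by
      simp only [smul_add, smul_sub, ← natCast_zsmul, smul_smul, add_smul, Nat.cast_mul]
      rw [mul_comm (N' : ℤ) (N : ℤ)]
      abel
    rw [h]
    exact add_mem (nsmul_mem hx _) (nsmul_mem hy _)
  neg_mem' := by
    rintro x ⟨N, hN, m, hx⟩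
    refine ⟨N, hN, -m, ?_⟩
    have h : N • -x - (-m) • c0 = -(N • x - m • c0) := by
      rw [smul_neg, neg_smul]
      abel
    rw [h]
    exact neg_mem hx

section

variable {A : Type} [AddCommGroup A] {R : AddSubgroup A}

theorem Mult.of_nsmul {c0 c : A} {N : ℕ} (hN : 0 < N) (h : N • c ∈ Mult R c0) : c ∈ Mult R c0 := by
  obtain ⟨M, hM, m, h1⟩ := h
  refine ⟨M * N, Nat.mul_pos hM hN, m, ?_⟩
  rw [mul_smul]
  exact h1

theorem Mult.of_mem {c0 c : A} (h : c ∈ R) : c ∈ Mult R c0 :=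
  ⟨1, one_pos, 0, by rwa [one_smul, zero_smul, sub_zero]⟩

theorem Mult.self {c0 : A} : c0 ∈ Mult R c0 :=
  ⟨1, one_pos, 1, by rw [one_smul, one_smul, sub_self]; exact zero_mem _⟩

theorem Mult.trans {c c1 c0 : A} (h : c ∈ Mult R c1) (h1 : c1 ∈ Mult R c0) : c ∈ Mult R c0 := by
  obtain ⟨N, hN, m, h2⟩ := h
  have h3 : N • c ∈ Mult R c0 := by
    have h4 : N • c = (N • c - m • c1) + m • c1 := by abel
    rw [h4]
    exact add_mem (Mult.of_mem h2) (zsmul_mem h1 m)
  exact Mult.of_nsmul hN h3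

end

/-- the family of lines through `z` and `φ(e)`, `e` in `G = 0`, is contained in `F = 0` and
nondegenerate -/
def GoodS {K0 K1 : Type} [Field K0] [Field K1] [Algebra K0 K1] {ι ν α β : Type} [Fintype ν]
    (F : α → MvPolynomial ι K0) (G : β → MvPolynomial ν K1) (z : ι → K1) (φ : ν → ι → K1) : Prop :=
  (∀ (κ : Type) [Field κ] [Algebra K1 κ] (e : ν → κ), e ≠ 0 → (∀ b, aeval e (G b) = 0) →
    LinearIndependent κ ![cst κ z, lm φ e]) ∧
  ∀ (κ : Type) [Field κ] [Algebra K1 κ] [Algebra K0 κ] [IsScalarTower K0 K1 κ] (e : ν → κ),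
    (∀ b, aeval e (G b) = 0) → ∀ a, Vanish (F a) (cst κ z) (lm φ e)

/-- vertical terms: limits of the lines at places which are not trivial on `K1` -/
def VTS (K0 : Type) {K1 : Type} [Field K0] [Field K1] [Algebra K0 K1] {ι ν β : Type} [Fintype ν]
    (n : ℕ) (G : β → MvPolynomial ν K1) (z : ι → K1) (φ : ν → ι → K1) :
    Set (Set (MvPolynomial ι K0) →₀ ℤ) :=
  {c | ∃ (M : Type) (_ : Field M) (_ : Algebra K1 M) (_ : Algebra K0 M) (_ : IsScalarTower K0 K1 M)
    (t : Place K0 M) (Q : ν → M) (a b : ι → t.RF), Q ≠ 0 ∧ (∀ b, aeval Q (G b) = 0) ∧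
    (∃ x : K1, t.ord (algebraMap K1 M x) ≠ 0) ∧ Algebra.trdeg K0 t.RF = n ∧
    IsLim t (cst M z) (lm φ Q) a b ∧ c = cyc K0 (gen a b)}

/-- the coefficient of `β ^ j` in `F(P + β w)` -/
noncomputable def co {k A ι : Type} [Field k] [CommRing A] [Algebra k A] (F : MvPolynomial ι k)
    (P w : ι → A) (j : ℕ) : A :=
  (aeval (fun i => Polynomial.C (P i) + Polynomial.X * Polynomial.C (w i)) F : Polynomial A).coeff j

/-- the vector `v` has support in `S` -/
def Supp {ι A : Type} [Zero A] (S : Finset ι) (v : ι → A) : Prop := ∀ i ∉ S, v i = 0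

/-- each monomial of `F` which is divisible by a variable of `Y` has degree at most `m` in the
variables of `X` -/
def Mix {k ι : Type} [Field k] (F : MvPolynomial ι k) (X Y : Finset ι) (m : ℕ) : Prop :=
  ∀ s ∈ F.support, (∃ i ∈ Y, s i ≠ 0) → ∑ i ∈ X, s i ≤ m

end Pool.Agent.Z15P.Z15.S
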